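import Pool.Agent.V5helper50.MU

/-! The measures `P_t` and their tails. -/

set_option autoImplicit false

namespace Pool.Agent.V5helper50.MP

open Finset Pool.Agent.Y21.CUB W93.CU Pool.Agent.V5helper50.MU

/-- The measures: `P 1` is the point mass at `0`, `P (2 n) = P n` and
`P (2 n + 1) d = P n (d - 1) / 2 + P (n + 1) (d + 1) / 2` for `n ≥ 1`. -/
noncomputable def P : ℕ → ℤ → ℝ
  | 0 => fun _ => 0
  | 1 => fun d => if d = 0 then 1 else 0
  | t + 2 => if h : (t + 2) % 2 = 0 then P ((t + 2) / 2) else
      fun d => 1 / 2 * P ((t + 2) / 2) (d - 1) + 1 / 2 * P ((t + 2) / 2 + 1) (d + 1)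
decreasing_by all_goals omega

lemma P_one (d : ℤ) : P 1 d = if d = 0 then 1 else 0 := by
  rw [P]

lemma P_even (n : ℕ) (hn : 1 ≤ n) : P (2 * n) = P n := by
  obtain ⟨t, ht⟩ : ∃ t, 2 * n = t + 2 := ⟨2 * n - 2, by omega⟩
  rw [ht, P, dif_pos (by omega)]
  congr 1
  omega

lemma P_odd (n : ℕ) (hn : 1 ≤ n) (d : ℤ) :
    P (2 * n + 1) d = 1 / 2 * P n (d - 1) + 1 / 2 * P (n + 1) (d + 1) := by
  obtain ⟨t, ht⟩ : ∃ t, 2 * n + 1 = t + 2 := ⟨2 * n - 1, by omega⟩
  have h2 : (t + 2) / 2 = n := by omega
  rw [ht, P, dif_neg (by omega), h2]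

/-- the number with the binary digits `w`, from the last one on, followed by the digit `1` -/
def val : List Bool → ℕ
  | [] => 1
  | b :: w => Nat.bit b (val w)

lemma val_false (w : List Bool) : val (false :: w) = 2 * val w := by
  show Nat.bit false (val w) = _
  rw [Nat.bit_false]

lemma val_true (w : List Bool) : val (true :: w) = 2 * val w + 1 := by
  show Nat.bit true (val w) = _
  rw [Nat.bit_true]

lemma val_pos (w : List Bool) : 1 ≤ val w := by
  induction w with
  | nil => exact le_rfl
  | cons b w ih =>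
    cases b
    · rw [val_false]; omega
    · rw [val_true]; omega

lemma exists_val (t : ℕ) : 1 ≤ t → ∃ w, val w = t := by
  induction t using Nat.strong_induction_on with
  | _ t ih =>
    intro ht
    by_cases h1 : t = 1
    · exact ⟨[], h1.symm⟩
    · obtain ⟨w, hw⟩ := ih (t / 2) (by omega) (by omega)
      rcases Nat.even_or_odd' t with ⟨n, hn | hn⟩
      · refine ⟨false :: w, ?_⟩
        rw [val_false, hw]; omega
      · refine ⟨true :: w, ?_⟩
        rw [val_true, hw]; omega

lemma val_bounds (w : List Bool) : 2 ^ w.length ≤ val w ∧ val w < 2 ^ (w.length + 1) := by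
  induction w with
  | nil => exact ⟨le_rfl, by show 1 < 2 ^ 1; norm_num⟩
  | cons b w ih =>
    cases b
    · rw [val_false, List.length_cons, pow_succ, pow_succ]
      rw [pow_succ] at ih
      omega
    · rw [val_true, List.length_cons, pow_succ, pow_succ]
      rw [pow_succ] at ih
      omega

lemma bits_val (w : List Bool) : (val w).bits = w ++ [true] := by
  induction w with
  | nil => show (1 : ℕ).bits = [true]; simp
  | cons b w ih =>
    show (Nat.bit b (val w)).bits = _
    rw [Nat.bits_append_bit _ _ (fun h => absurd h (by have := val_pos w; omega)), ih]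
    rfl

lemma P_nonneg (w : List Bool) : (∀ d, 0 ≤ P (val w) d) ∧ ∀ d, 0 ≤ P (val w + 1) d := by
  induction w with
  | nil =>
    have h1 : ∀ d, 0 ≤ P 1 d := fun d => by rw [P_one]; split_ifs <;> norm_num
    refine ⟨h1, fun d => ?_⟩
    show 0 ≤ P (2 * 1) d
    rw [P_even 1 le_rfl]; exact h1 d
  | cons b w ih =>
    have hp := val_pos w
    have hm : ∀ d, 0 ≤ P (2 * val w + 1) d := fun d => by
      rw [P_odd _ hp]
      have := ih.1 (d - 1)
      have := ih.2 (d + 1)
      positivity
    cases b
    · rw [val_false, P_even _ hp]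
      exact ⟨ih.1, hm⟩
    · rw [val_true, show 2 * val w + 1 + 1 = 2 * (val w + 1) by ring, P_even _ (by omega)]
      exact ⟨hm, ih.2⟩

/-- shifts of a convergent sum -/
lemma hasSum_shift (f : ℤ → ℝ) (a : ℝ) (c : ℤ) (h : HasSum f a) :
    HasSum (fun d => f (d + c)) a := (Equiv.addRight c).hasSum_iff.2 h

lemma total (w : List Bool) : HasSum (P (val w)) 1 ∧ HasSum (P (val w + 1)) 1 := by
  induction w with
  | nil =>
    have h1 : HasSum (P 1) 1 := by
      have e : P 1 = fun d : ℤ => if d = 0 then (1 : ℝ) else 0 := funext P_one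
      rw [e]
      exact hasSum_ite_eq 0 1
    refine ⟨h1, ?_⟩
    show HasSum (P (2 * 1)) 1
    rw [P_even 1 le_rfl]; exact h1
  | cons b w ih =>
    have hp := val_pos w
    have hm : HasSum (P (2 * val w + 1)) 1 := by
      have e : P (2 * val w + 1) = fun d =>
          1 / 2 * P (val w) (d + (-1)) + 1 / 2 * P (val w + 1) (d + 1) := by
        funext d; rw [P_odd _ hp]; rfl
      rw [e]
      have h := ((hasSum_shift _ _ (-1) ih.1).mul_left (1 / 2)).add
        ((hasSum_shift _ _ 1 ih.2).mul_left (1 / 2))
      norm_num at h ⊢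
      exact h
    cases b
    · rw [val_false, P_even _ hp]
      exact ⟨ih.1, hm⟩
    · rw [val_true, show 2 * val w + 1 + 1 = 2 * (val w + 1) by ring, P_even _ (by omega)]
      exact ⟨hm, ih.2⟩

/-- the tails are those of the library -/
lemma tails (w : List Bool) : ∀ k : ℤ,
    HasSum (Set.indicator {d : ℤ | k ≤ d} (P (val w))) ((tlp (1 / 2) w).1 k) ∧
    HasSum (Set.indicator {d : ℤ | k ≤ d} (P (val w + 1))) ((tlp (1 / 2) w).2 k) := by
  induction w with
  | nil =>
    intro k
    have h1 : HasSum (Set.indicator {d : ℤ | k ≤ d} (P 1)) (one0 k) := by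
      have e : Set.indicator {d : ℤ | k ≤ d} (P 1) =
          fun d : ℤ => if d = 0 then one0 k else 0 := by
        funext d
        unfold one0
        rw [Set.indicator_apply, P_one]
        by_cases hd : d = 0
        · subst hd
          simp only [Set.mem_ofPred_eq, if_true]
        · simp [hd]
      rw [e]
      exact hasSum_ite_eq 0 (one0 k)
    refine ⟨h1, ?_⟩
    show HasSum (Set.indicator {d : ℤ | k ≤ d} (P (2 * 1))) (one0 k)
    rw [P_even 1 le_rfl]; exact h1
  | cons b w ih =>
    intro k
    have hp := val_pos w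
    have hm : HasSum (Set.indicator {d : ℤ | k ≤ d} (P (2 * val w + 1)))
        (1 / 2 * (tlp (1 / 2) w).1 (k - 1) + (1 - 1 / 2) * (tlp (1 / 2) w).2 (k + 1)) := by
      have e : Set.indicator {d : ℤ | k ≤ d} (P (2 * val w + 1)) = fun d =>
          1 / 2 * Set.indicator {d : ℤ | k - 1 ≤ d} (P (val w)) (d + (-1)) +
          1 / 2 * Set.indicator {d : ℤ | k + 1 ≤ d} (P (val w + 1)) (d + 1) := by
        funext d
        rw [Set.indicator_apply, Set.indicator_apply, Set.indicator_apply]
        by_cases hd : k ≤ d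
        · rw [if_pos (show d ∈ {d : ℤ | k ≤ d} from hd),
            if_pos (show d + -1 ∈ {d : ℤ | k - 1 ≤ d} by simp only [Set.mem_ofPred_eq]; omega),
            if_pos (show d + 1 ∈ {d : ℤ | k + 1 ≤ d} by simp only [Set.mem_ofPred_eq]; omega),
            P_odd _ hp]
          rfl
        · rw [if_neg (show d ∉ {d : ℤ | k ≤ d} from hd),
            if_neg (show d + -1 ∉ {d : ℤ | k - 1 ≤ d} by simp only [Set.mem_ofPred_eq]; omega),
            if_neg (show d + 1 ∉ {d : ℤ | k + 1 ≤ d} by simp only [Set.mem_ofPred_eq]; omega)]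
          norm_num
      rw [e]
      have h := ((hasSum_shift _ _ (-1) (ih (k - 1)).1).mul_left (1 / 2)).add
        ((hasSum_shift _ _ 1 (ih (k + 1)).2).mul_left (1 / 2))
      norm_num at h ⊢
      exact h
    cases b
    · rw [val_false, P_even _ hp]
      exact ⟨(ih k).1, hm⟩
    · rw [val_true, show 2 * val w + 1 + 1 = 2 * (val w + 1) by ring, P_even _ (by omega)]
      exact ⟨hm, (ih k).2⟩

/-- the mass that `P t` gives to the set `A` -/
noncomputable def mass (t : ℕ) (A : Set ℤ) : ℝ := ∑' d : ℤ, A.indicator (P t) d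

lemma mass_even (n : ℕ) (hn : 1 ≤ n) (A : Set ℤ) : mass (2 * n) A = mass n A := by
  unfold mass; rw [P_even n hn]

lemma mass_one_mem (A : Set ℤ) (h : (0 : ℤ) ∈ A) : mass 1 A = 1 := by
  classical
  have e : A.indicator (P 1) = fun d : ℤ => if d = 0 then (1 : ℝ) else 0 := by
    funext d
    rw [Set.indicator_apply, P_one]
    by_cases hd : d = 0
    · subst hd; simp [h]
    · simp [hd]
  unfold mass
  rw [e]
  exact (hasSum_ite_eq 0 (1 : ℝ)).tsum_eq

/-- the mass of the nonnegative integers for odd `t ≥ 3` -/
theorem mass_pos (w : List Bool) :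
    mass (val (true :: w)) {d | 0 ≤ d} = pos (1 / 2) w.reverse := by
  unfold mass
  rw [((tails (true :: w)) 0).1.tsum_eq]
  have h := tail_pos (1 / 2) (by norm_num) (by norm_num) w.reverse
  rw [List.reverse_reverse] at h
  exact h

/-- the mass of the nonpositive integers for odd `t ≥ 3` -/
theorem mass_neg (w : List Bool) :
    mass (val (true :: w)) {d | d ≤ 0} = pos (1 / 2) (w.reverse.map not) := by
  have h1 := ((tails (true :: w)) 1).1
  have h2 := (total (true :: w)).1
  have e : (P (val (true :: w)) - Set.indicator {d : ℤ | 1 ≤ d} (P (val (true :: w)))) =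
      Set.indicator {d : ℤ | d ≤ 0} (P (val (true :: w))) := by
    funext d
    rw [Pi.sub_apply, Set.indicator_apply, Set.indicator_apply]
    by_cases hd : d ≤ 0
    · rw [if_pos (show d ∈ {d : ℤ | d ≤ 0} from hd),
        if_neg (show d ∉ {d : ℤ | 1 ≤ d} by simp only [Set.mem_ofPred_eq]; omega), sub_zero]
    · rw [if_neg (show d ∉ {d : ℤ | d ≤ 0} from hd),
        if_pos (show d ∈ {d : ℤ | 1 ≤ d} by simp only [Set.mem_ofPred_eq]; omega), sub_self]
  have h3 : HasSum (Set.indicator {d : ℤ | d ≤ 0} (P (val (true :: w))))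
      (1 - (tlp (1 / 2) (true :: w)).1 1) := by
    rw [← e]
    exact h2.sub h1
  unfold mass
  rw [h3.tsum_eq]
  have h := tail_one (1 / 2) (by norm_num) (by norm_num) w.reverse
  rw [List.reverse_reverse] at h
  have h4 : (tlp (1 / 2) (true :: w)).1 1 =
      1 / 2 * (tlp (1 / 2) w).1 (1 - 1) + (1 - 1 / 2) * (tlp (1 / 2) w).2 (1 + 1) := rfl
  rw [h4, h]
  norm_num

/-- the median inequalities for all `t` -/
theorem median (t : ℕ) (ht : 1 ≤ t) :
    1 / 2 ≤ mass t {d | 0 ≤ d} ∧ 1 / 2 ≤ mass t {d | d ≤ 0} := by
  obtain ⟨w, rfl⟩ := exists_val t ht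
  induction w with
  | nil =>
    rw [show val [] = 1 from rfl, mass_one_mem _ (by simp), mass_one_mem _ (by simp)]
    norm_num
  | cons b w ih =>
    cases b
    · rw [val_false, mass_even _ (val_pos w), mass_even _ (val_pos w)]
      exact ih (val_pos w)
    · rw [mass_pos, mass_neg]
      exact ⟨pos_ge _ le_rfl (by norm_num) _, pos_ge _ le_rfl (by norm_num) _⟩

/-- the binary digits of `t` strictly between the leading and the last one, from the left to the
right -/
def middle (t : ℕ) : List Bool := t.bits.tail.dropLast.reverse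

lemma middle_val (w : List Bool) : middle (val (true :: w)) = w.reverse := by
  unfold middle
  rw [bits_val]
  show ((w ++ [true]).dropLast).reverse = _
  rw [List.dropLast_concat]

lemma odd_val (t : ℕ) (ht : 3 ≤ t) (ho : Odd t) : ∃ w, val (true :: w) = t := by
  obtain ⟨w, hw⟩ := exists_val t (by omega)
  cases w with
  | nil => exfalso; rw [show val [] = 1 from rfl] at hw; omega
  | cons b w =>
    cases b
    · rw [val_false] at hw
      obtain ⟨m, hm⟩ := ho
      omega
    · exact ⟨w, hw⟩

theorem equality (t : ℕ) (ht : 3 ≤ t) (ho : Odd t) :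
    (mass t {d | 0 ≤ d} = 1 / 2 ↔ LongRuns false (middle t)) ∧
    (mass t {d | d ≤ 0} = 1 / 2 ↔ LongRuns true (middle t)) := by
  obtain ⟨w, rfl⟩ := odd_val t ht ho
  have key : ∀ v : List Bool, pos (1 / 2) v = 1 / 2 ↔ LongRuns false v := by
    intro v
    rw [pos_eq_iff _ le_rfl (by norm_num)]
    constructor
    · rintro (h | h)
      · intro g _
        rw [List.count_eq_zero_of_not_mem h]
        exact Nat.zero_le _
      · exact h.2
    · exact fun h => Or.inr ⟨rfl, h⟩
  rw [mass_pos, mass_neg, middle_val, key, key, longRuns_not]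
  exact ⟨Iff.rfl, Iff.rfl⟩

/-- the odd numbers with `k + 2` binary digits for which the mass of `ℕ` is `1 / 2` -/
def EQ (k : ℕ) : Set ℕ :=
  {t | 2 ^ (k + 1) ≤ t ∧ t < 2 ^ (k + 2) ∧ Odd t ∧ mass t {d | 0 ≤ d} = 1 / 2}

lemma val_inj (u : List Bool) : ∀ v : List Bool, val u = val v → u = v := by
  intro v h
  have h1 := bits_val u
  rw [h, bits_val v] at h1
  exact (List.append_cancel_right h1).symm

lemma EQ_eq (k : ℕ) : EQ k =
    (((lists k).filter fun v => LongRuns false v).image fun v => val (true :: v.reverse) :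
      Finset ℕ) := by
  ext t
  rw [Finset.coe_image, Set.mem_image]
  constructor
  · rintro ⟨h1, h2, h3, h4⟩
    have h5 : 3 ≤ t := by
      have : 2 ^ 1 ≤ 2 ^ (k + 1) := Nat.pow_le_pow_right (by norm_num) (by omega)
      obtain ⟨m, hm⟩ := h3
      omega
    obtain ⟨w, rfl⟩ := odd_val t h5 h3
    refine ⟨w.reverse, ?_, by rw [List.reverse_reverse]⟩
    rw [Finset.mem_coe, Finset.mem_filter, mem_lists, List.length_reverse]
    refine ⟨?_, ?_⟩
    · have hb := val_bounds (true :: w)
      rw [List.length_cons] at hb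
      have h6 : 2 ^ (w.length + 1) < 2 ^ (k + 2) := lt_of_le_of_lt hb.1 h2
      have h7 : 2 ^ (k + 1) < 2 ^ (w.length + 1 + 1) := lt_of_le_of_lt h1 hb.2
      have h8 := (Nat.pow_lt_pow_iff_right (by norm_num : 1 < 2)).1 h6
      have h9 := (Nat.pow_lt_pow_iff_right (by norm_num : 1 < 2)).1 h7
      omega
    · have := (equality _ h5 h3).1.1 h4
      rwa [middle_val] at this
  · rintro ⟨v, hv, rfl⟩
    rw [Finset.mem_coe, Finset.mem_filter, mem_lists] at hv
    have hb := val_bounds (true :: v.reverse)
    rw [List.length_cons, List.length_reverse, hv.1] at hb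
    have ho : Odd (val (true :: v.reverse)) := by
      rw [val_true]; exact ⟨_, rfl⟩
    have h3 : 3 ≤ val (true :: v.reverse) := by
      rw [val_true]; have := val_pos v.reverse; omega
    refine ⟨hb.1, hb.2, ho, ?_⟩
    rw [(equality _ h3 ho).1, middle_val, List.reverse_reverse]
    exact hv.2

theorem card_EQ (k : ℕ) : (EQ k).ncard = ∑ l ∈ range (k + 1), (k - l ^ 2 - l).choose l := by
  rw [EQ_eq, Set.ncard_coe_finset, Finset.card_image_of_injective, card_longRuns]
  intro u v h
  have := val_inj _ _ h
  rw [List.cons.injEq] at this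
  exact List.reverse_injective this.2

lemma val_append_true (w : List Bool) : 3 * 2 ^ w.length ≤ val (w ++ [true]) := by
  induction w with
  | nil =>
    show 3 * 2 ^ 0 ≤ val [true]
    rw [val_true, show val [] = 1 from rfl]
    norm_num
  | cons b w ih =>
    rw [List.cons_append, List.length_cons, pow_succ]
    cases b
    · rw [val_false]; omega
    · rw [val_true]; omega

/-- the equality cases in the range of the computations -/
theorem card_computed :
    {t : ℕ | 3 ≤ t ∧ t ≤ 12000001 ∧ Odd t ∧ mass t {d | 0 ≤ d} = 1 / 2}.ncard = 982 := by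
  classical
  have e : {t : ℕ | 3 ≤ t ∧ t ≤ 12000001 ∧ Odd t ∧ mass t {d | 0 ≤ d} = 1 / 2} =
      (((range 22).biUnion fun k => ((lists k).filter fun v => LongRuns false v).image
        fun v => val (true :: v.reverse) : Finset ℕ) : Set ℕ) := by
    ext t
    rw [Finset.mem_coe, Finset.mem_biUnion]
    constructor
    · rintro ⟨h3, h1, ho, he⟩
      obtain ⟨w, rfl⟩ := odd_val t h3 ho
      have hb := val_bounds (true :: w)
      rw [List.length_cons] at hb
      have hl := (equality _ h3 ho).1.1 he
      rw [middle_val] at hl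
      have hw : w.length < 22 := by
        by_contra hw
        have h5 : w.length + 1 < 24 := by
          by_contra h5
          have : 2 ^ 24 ≤ 2 ^ (w.length + 1) := Nat.pow_le_pow_right (by norm_num) (by omega)
          norm_num at this
          omega
        have h6 : w.reverse.length = 22 := by rw [List.length_reverse]; omega
        rw [longRuns_gaps] at hl
        obtain ⟨b, v, hv⟩ : ∃ b v, w.reverse = b :: v := by
          cases hr : w.reverse with
          | nil => rw [hr] at h6; simp at h6
          | cons b v => exact ⟨b, v, rfl⟩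
        rw [hv] at hl h6
        cases b
        · have := hl 0 (by show 0 ∈ gaps (false :: v); exact List.mem_cons_self)
          rw [List.count_cons_self] at this
          omega
        · have h7 : w = v.reverse ++ [true] := by
            rw [← List.reverse_reverse w, hv, List.reverse_cons]
          have h8 := val_append_true (true :: v.reverse)
          rw [List.length_cons, List.length_reverse, List.cons_append, ← h7] at h8
          rw [List.length_cons] at h6
          rw [show v.length + 1 = 22 from h6] at h8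
          norm_num at h8
          omega
      refine ⟨w.length, Finset.mem_range.2 hw, ?_⟩
      rw [Finset.mem_image]
      refine ⟨w.reverse, ?_, by rw [List.reverse_reverse]⟩
      rw [Finset.mem_filter, mem_lists, List.length_reverse]
      exact ⟨rfl, hl⟩
    · rintro ⟨k, hk, ht⟩
      rw [← Finset.mem_coe, ← EQ_eq k] at ht
      obtain ⟨h1, h2, ho, he⟩ := ht
      rw [Finset.mem_range] at hk
      have h4 : 2 ^ (k + 2) ≤ 2 ^ 23 := Nat.pow_le_pow_right (by norm_num) (by omega)
      have h5 : 2 ^ 1 ≤ 2 ^ (k + 1) := Nat.pow_le_pow_right (by norm_num) (by omega)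
      refine ⟨?_, ?_, ho, he⟩
      · obtain ⟨m, hm⟩ := ho
        omega
      · norm_num at h4
        omega
  rw [e, Set.ncard_coe_finset, Finset.card_biUnion]
  · have h : ∀ k ∈ range 22, (((lists k).filter fun v => LongRuns false v).image
        fun v => val (true :: v.reverse)).card = ∑ l ∈ range (k + 1), (k - l ^ 2 - l).choose l := by
      intro k _
      rw [← card_EQ k, EQ_eq k, Set.ncard_coe_finset]
    rw [Finset.sum_congr rfl h]
    decide +kernel
  · intro a _ b _ hab
    rw [Function.onFun, Finset.disjoint_left]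
    intro t h1 h2
    rw [← Finset.mem_coe, ← EQ_eq] at h1 h2
    apply hab
    have h3 := lt_of_le_of_lt h1.1 h2.2.1
    have h4 := lt_of_le_of_lt h2.1 h1.2.1
    have h5 := (Nat.pow_lt_pow_iff_right (by norm_num : 1 < 2)).1 h3
    have h6 := (Nat.pow_lt_pow_iff_right (by norm_num : 1 < 2)).1 h4
    omega

end Pool.Agent.V5helper50.MP
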