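import Pool.Agent.Y21.CUB.C

/-! Counting the words in which all the runs of the letter `true` are at least as long as the number
of the letters `false`. -/

set_option autoImplicit false

namespace Pool.Agent.V5helper50.MU

open Finset Pool.Agent.Y21.CUB W93.CU

/-- the words of length `k` -/
def lists : ℕ → Finset (List Bool)
  | 0 => {[]}
  | k + 1 => (lists k).image (List.cons true) ∪ (lists k).image (List.cons false)

lemma mem_lists (k : ℕ) : ∀ v : List Bool, v ∈ lists k ↔ v.length = k := by
  induction k with
  | zero => intro v; simp [lists, List.length_eq_zero_iff]
  | succ k ih =>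
    intro v
    simp only [lists, Finset.mem_union, Finset.mem_image, ih]
    constructor
    · rintro (⟨u, hu, rfl⟩ | ⟨u, hu, rfl⟩) <;> simp [hu]
    · intro h
      cases v with
      | nil => simp at h
      | cons b v =>
        have h' : v.length = k := by simpa using h
        cases b
        · exact Or.inr ⟨v, h', rfl⟩
        · exact Or.inl ⟨v, h', rfl⟩

/-- the words of length `n` with `l` letters `false` -/
def A (n l : ℕ) : Finset (List Bool) := (lists n).filter fun v => v.count false = l

lemma mem_A (n l : ℕ) (v : List Bool) : v ∈ A n l ↔ v.length = n ∧ v.count false = l := by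
  rw [A, Finset.mem_filter, mem_lists]

lemma card_A (n : ℕ) : ∀ l : ℕ, (A n l).card = n.choose l := by
  induction n with
  | zero =>
    intro l
    cases l with
    | zero =>
      have : A 0 0 = {[]} := by
        ext v; rw [mem_A, Finset.mem_singleton, List.length_eq_zero_iff]
        constructor
        · exact fun h => h.1
        · rintro rfl; exact ⟨rfl, rfl⟩
      rw [this]; rfl
    | succ l =>
      have : A 0 (l + 1) = ∅ := by
        ext v; rw [mem_A, List.length_eq_zero_iff]
        constructor
        · rintro ⟨rfl, h⟩; simp at h
        · intro h; simp at h
      rw [this]; rfl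
  | succ n ih =>
    intro l
    have inj : ∀ b : Bool, Function.Injective (List.cons b) := fun b u v h => by
      simpa using h
    cases l with
    | zero =>
      have : A (n + 1) 0 = (A n 0).image (List.cons true) := by
        ext v
        rw [mem_A, Finset.mem_image]
        constructor
        · rintro ⟨h1, h2⟩
          cases v with
          | nil => simp at h1
          | cons b v =>
            cases b
            · rw [List.count_cons_self] at h2; omega
            · refine ⟨v, (mem_A _ _ _).2 ⟨by simpa using h1, ?_⟩, rfl⟩
              rwa [List.count_cons_of_ne (by decide)] at h2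
        · rintro ⟨u, hu, rfl⟩
          rw [mem_A] at hu
          refine ⟨by simp [hu.1], ?_⟩
          rw [List.count_cons_of_ne (by decide)]; exact hu.2
      rw [this, Finset.card_image_of_injective _ (inj true), ih]
      simp
    | succ l =>
      have : A (n + 1) (l + 1) = (A n (l + 1)).image (List.cons true) ∪
          (A n l).image (List.cons false) := by
        ext v
        rw [mem_A, Finset.mem_union, Finset.mem_image, Finset.mem_image]
        constructor
        · rintro ⟨h1, h2⟩
          cases v with
          | nil => simp at h1
          | cons b v =>
            cases b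
            · right
              refine ⟨v, (mem_A _ _ _).2 ⟨by simpa using h1, ?_⟩, rfl⟩
              rw [List.count_cons_self] at h2; omega
            · left
              refine ⟨v, (mem_A _ _ _).2 ⟨by simpa using h1, ?_⟩, rfl⟩
              rwa [List.count_cons_of_ne (by decide)] at h2
        · rintro (⟨u, hu, rfl⟩ | ⟨u, hu, rfl⟩)
          · rw [mem_A] at hu
            refine ⟨by simp [hu.1], ?_⟩
            rw [List.count_cons_of_ne (by decide)]; exact hu.2
          · rw [mem_A] at hu
            refine ⟨by simp [hu.1], ?_⟩
            rw [List.count_cons_self, hu.2]
      have hd : Disjoint ((A n (l + 1)).image (List.cons true))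
          ((A n l).image (List.cons false)) := by
        rw [Finset.disjoint_left]
        intro v h1 h2
        obtain ⟨u, _, rfl⟩ := Finset.mem_image.1 h1
        obtain ⟨u', _, h⟩ := Finset.mem_image.1 h2
        simp at h
      rw [this, Finset.card_union_of_disjoint hd, Finset.card_image_of_injective _ (inj true),
        Finset.card_image_of_injective _ (inj false), ih, ih, Nat.choose_succ_succ]
      exact Nat.add_comm _ _

/-- `m` letters `true` more in each run -/
def E (m : ℕ) : List Bool → List Bool
  | [] => List.replicate m true
  | true :: v => true :: E m v
  | false :: v => List.replicate m true ++ false :: E m v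

lemma gp_rep (m : ℕ) (u : List Bool) :
    gp (List.replicate m true ++ u) = ((gp u).1 + m, (gp u).2) := by
  induction m with
  | zero => simp
  | succ m ih =>
    rw [List.replicate_succ, List.cons_append]
    show ((gp (List.replicate m true ++ u)).1 + 1, (gp (List.replicate m true ++ u)).2) = _
    rw [ih]
    simp only [Prod.mk.injEq, and_true]
    omega

lemma gaps_E (m : ℕ) (v : List Bool) : gaps (E m v) = (gaps v).map (· + m) := by
  induction v with
  | nil =>
    have h := gp_rep m []
    rw [List.append_nil] at h
    show (gp (List.replicate m true)).1 :: (gp (List.replicate m true)).2 = [0 + m]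
    rw [h]; rfl
  | cons b v ih =>
    have ih' : (gp (E m v)).1 = (gp v).1 + m ∧ (gp (E m v)).2 = (gp v).2.map (· + m) := by
      unfold gaps at ih
      rw [List.map_cons, List.cons.injEq] at ih
      exact ih
    cases b with
    | true =>
      show ((gp (E m v)).1 + 1) :: (gp (E m v)).2 = ((gp v).1 + 1 + m) :: (gp v).2.map (· + m)
      rw [ih'.1, ih'.2]
      congr 1
      omega
    | false =>
      show (gp (List.replicate m true ++ false :: E m v)).1 ::
        (gp (List.replicate m true ++ false :: E m v)).2 = (0 + m) :: (gaps v).map (· + m)
      rw [gp_rep, ← ih]
      rfl

lemma count_E (m : ℕ) (v : List Bool) : (E m v).count false = v.count false := by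
  induction v with
  | nil =>
    show (List.replicate m true).count false = 0
    rw [List.count_replicate]; simp
  | cons b v ih =>
    cases b with
    | true =>
      show (true :: E m v).count false = _
      rw [List.count_cons_of_ne (by decide), List.count_cons_of_ne (by decide), ih]
    | false =>
      show (List.replicate m true ++ false :: E m v).count false = _
      rw [List.count_append, List.count_cons_self, List.count_cons_self, ih,
        List.count_replicate]
      simp

lemma length_E (m : ℕ) (v : List Bool) :
    (E m v).length = v.length + m * (v.count false + 1) := by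
  induction v with
  | nil => show (List.replicate m true).length = _; simp
  | cons b v ih =>
    cases b with
    | true =>
      show (true :: E m v).length = _
      rw [List.length_cons, ih, List.count_cons_of_ne (by decide), List.length_cons]
      ring
    | false =>
      show (List.replicate m true ++ false :: E m v).length = _
      rw [List.length_append, List.length_cons, ih, List.count_cons_self, List.length_cons,
        List.length_replicate]
      ring

lemma gp_inj (u : List Bool) : ∀ v : List Bool, gp u = gp v → u = v := by
  induction u with
  | nil =>
    intro v h
    cases v with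
    | nil => rfl
    | cons b v =>
      cases b
      · have := congrArg Prod.snd h
        simp [gp] at this
      · have := congrArg Prod.fst h
        simp [gp] at this
  | cons b u ih =>
    intro v h
    cases b with
    | true =>
      cases v with
      | nil =>
        have := congrArg Prod.fst h
        simp [gp] at this
      | cons c v =>
        cases c
        · have := congrArg Prod.fst h
          simp [gp] at this
        · have h1 := congrArg Prod.fst h
          have h2 := congrArg Prod.snd h
          simp only [gp, Nat.add_right_cancel_iff] at h1 h2
          rw [ih v (Prod.ext h1 h2)]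
    | false =>
      cases v with
      | nil =>
        have := congrArg Prod.snd h
        simp [gp] at this
      | cons c v =>
        cases c
        · have h2 := congrArg Prod.snd h
          simp only [gp, List.cons.injEq] at h2
          rw [ih v (Prod.ext h2.1 h2.2)]
        · have := congrArg Prod.fst h
          simp [gp] at this

lemma gaps_inj (u v : List Bool) (h : gaps u = gaps v) : u = v := by
  unfold gaps at h
  rw [List.cons.injEq] at h
  exact gp_inj u v (Prod.ext h.1 h.2)

lemma gp_surj (l : List ℕ) : ∀ a : ℕ, ∃ v : List Bool, gp v = (a, l) := by
  induction l with
  | nil =>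
    intro a
    refine ⟨List.replicate a true ++ [], ?_⟩
    rw [gp_rep]
    simp [gp]
  | cons b l ih =>
    intro a
    obtain ⟨v, hv⟩ := ih b
    refine ⟨List.replicate a true ++ false :: v, ?_⟩
    rw [gp_rep]
    show (0 + a, (gp v).1 :: (gp v).2) = _
    rw [hv, Nat.zero_add]

/-- the words of length `k` with `l` letters `false` and runs of length at least `l` -/
def B (k l : ℕ) : Finset (List Bool) :=
  (lists k).filter fun v => v.count false = l ∧ ∀ g ∈ gaps v, l ≤ g

lemma mem_B (k l : ℕ) (v : List Bool) :
    v ∈ B k l ↔ v.length = k ∧ v.count false = l ∧ ∀ g ∈ gaps v, l ≤ g := by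
  rw [B, Finset.mem_filter, mem_lists]

lemma card_B (k l : ℕ) : (B k l).card = (k - l ^ 2 - l).choose l := by
  by_cases h : l * (l + 1) ≤ k
  · have e : B k l = (A (k - l ^ 2 - l) l).image (E l) := by
      have hk : k - l ^ 2 - l + l * (l + 1) = k := by
        have : l ^ 2 + l = l * (l + 1) := by ring
        omega
      ext v
      rw [mem_B, Finset.mem_image]
      constructor
      · rintro ⟨h1, h2, h3⟩
        obtain ⟨u, hu⟩ := gp_surj ((gp v).2.map (· - l)) ((gp v).1 - l)
        have hgu : gaps u = (gaps v).map (· - l) := by
          unfold gaps
          rw [hu]; rfl
        have hE : E l u = v := by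
          apply gaps_inj
          rw [gaps_E, hgu, List.map_map]
          have : ∀ x ∈ gaps v, ((fun x => x + l) ∘ fun x => x - l) x = x := by
            intro x hx
            have := h3 x hx
            simp only [Function.comp_apply]
            omega
          rw [List.map_congr_left this, List.map_id']
        refine ⟨u, (mem_A _ _ _).2 ⟨?_, ?_⟩, hE⟩
        · have h4 := length_E l u
          rw [hE, ← count_E l u, hE, h2, h1] at h4
          omega
        · rw [← count_E l u, hE, h2]
      · rintro ⟨u, hu, rfl⟩
        rw [mem_A] at hu
        refine ⟨?_, ?_, ?_⟩
        · rw [length_E, hu.2, hu.1]; exact hk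
        · rw [count_E, hu.2]
        · intro g hg
          rw [gaps_E, List.mem_map] at hg
          obtain ⟨x, _, rfl⟩ := hg
          omega
    rw [e, Finset.card_image_of_injective, card_A]
    intro u v huv
    apply gaps_inj
    have h1 : (gaps u).map (· + l) = (gaps v).map (· + l) := by
      rw [← gaps_E, ← gaps_E]
      exact congrArg gaps huv
    exact (List.map_injective_iff.2 fun a b hab => by simpa using hab) h1
  · have e : B k l = ∅ := by
      ext v
      rw [mem_B]
      simp only [Finset.notMem_empty, iff_false]
      rintro ⟨h1, h2, h3⟩
      apply h
      have hs : ∀ L : List ℕ, (∀ g ∈ L, l ≤ g) → l * L.length ≤ L.sum := by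
        intro L
        induction L with
        | nil => intro _; simp
        | cons a L ih =>
          intro hL
          have := ih fun g hg => hL g (List.mem_cons_of_mem _ hg)
          have ha := hL a List.mem_cons_self
          rw [List.length_cons, List.sum_cons]
          nlinarith
      have h4 := hs _ h3
      unfold gaps at h4
      rw [List.length_cons, gp_length, List.sum_cons, gp_sum, h2] at h4
      have h5 := List.count_true_add_count_false v
      omega
    rw [e, Finset.card_empty]
    have hl : 1 ≤ l := by
      by_contra hl
      have : l = 0 := by omega
      subst this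
      exact h (by simp)
    have h0 : k - l ^ 2 - l = 0 := by
      have : l ^ 2 + l = l * (l + 1) := by ring
      omega
    rw [h0]
    exact (Nat.choose_eq_zero_of_lt hl).symm

lemma longRuns_gaps (v : List Bool) : LongRuns false v ↔ ∀ g ∈ gaps v, v.count false ≤ g := by
  unfold LongRuns
  rw [← split_false]
  constructor
  · intro h g hg
    obtain ⟨x, hx, rfl⟩ := List.mem_map.1 hg
    exact h x hx
  · intro h x hx
    exact h _ (List.mem_map.2 ⟨x, hx, rfl⟩)

instance (b : Bool) (v : List Bool) : Decidable (LongRuns b v) :=
  inferInstanceAs (Decidable (∀ g ∈ v.splitOn b, v.count b ≤ g.length))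

theorem card_longRuns (k : ℕ) : ((lists k).filter fun v => LongRuns false v).card =
    ∑ l ∈ range (k + 1), (k - l ^ 2 - l).choose l := by
  have e : ((lists k).filter fun v => LongRuns false v) =
      (range (k + 1)).biUnion (B k) := by
    ext v
    rw [Finset.mem_filter, mem_lists, Finset.mem_biUnion, longRuns_gaps]
    constructor
    · rintro ⟨h1, h2⟩
      refine ⟨v.count false, ?_, (mem_B _ _ _).2 ⟨h1, rfl, h2⟩⟩
      rw [Finset.mem_range, ← h1]
      exact Nat.lt_succ_of_le List.count_le_length
    · rintro ⟨l, _, hv⟩
      rw [mem_B] at hv
      refine ⟨hv.1, ?_⟩
      rw [hv.2.1]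
      exact hv.2.2
  rw [e, Finset.card_biUnion]
  · exact Finset.sum_congr rfl fun l _ => card_B k l
  · intro a _ b _ hab
    rw [Function.onFun, Finset.disjoint_left]
    intro v h1 h2
    rw [mem_B] at h1 h2
    exact hab (h1.2.1.symm.trans h2.2.1)

end Pool.Agent.V5helper50.MU
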